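import Pool.Agent.Lib.MP_b77ea7_ntL62.Lin62

/-!
# MP_b77ea7_nt: a conjugacy of `T_3` and `T_5` at a point with a finite orbit
-/

set_option autoImplicit false

namespace Pool.Agent.Results.MP_b77ea7_nt.BiLipschitzAtFinite

open TwoAdicQ

open Classical in
/-- Let `h` be a bijection of `D` with `h (T_3 x) = T_5 (h x)`, let `p` have a finite `T_3`-orbit, and
let `h` be continuous at `p` and its inverse at `h p`. Then `h` is bi-Lipschitz at `p`, has no
derivative at `p`, and if `p` is periodic it satisfies a linear functional equation near `p`. -/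
theorem result (h : ℚ → ℚ) (hc : Conj h) (p : ℚ) (hp : p ∈ D) (hf : FinOrb 3 p)
    (hcont : ∀ n, ∃ m, ∀ x ∈ D, Near m p x → Near n (h p) (h x))
    (hinv : ∀ n, ∃ m, ∀ x ∈ D, Near m (h p) (h x) → Near n p x) :
    (∃ c, ∀ n, ∀ x ∈ D, (Near (n + c) p x → Near n (h p) (h x)) ∧
      (Near (n + c) (h p) (h x) → Near n p x)) ∧
    (¬ ∃ L : ℚ_[2], HasDer h p L) ∧
    ∀ k, (T 3)^[k] p = p → ∃ m, ∀ x ∈ D, Near m p x →
      h (p + 2 ^ k / 3 ^ ((Finset.range k).filter fun i => ¬ Par 3 p i).card * (x - p)) =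
        h p + 2 ^ k / 5 ^ ((Finset.range k).filter fun i => ¬ Par 5 (h p) i).card *
          (h x - h p) :=
  lin62 h hc p hp hf hcont hinv

end Pool.Agent.Results.MP_b77ea7_nt.BiLipschitzAtFinite
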