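import Mathlib
import Pool.Agent.Lib.MP_b77ea7P.Local

/-!
No injective map that carries `T_3` to `T_5` on the rational numbers with odd denominator is proper
for the real absolute value, not even on a 2-adic ball.
-/

set_option autoImplicit false

namespace Pool.Agent.Results.MP_b77ea7_nt.NotProper

open RealGrowth

/-- Let `h : ℚ_(2) → ℚ_(2)` be injective with `h (T_3 x) = T_5 (h x)` for all `x` (for example a
topological conjugacy of the restrictions of `T_3` and `T_5`).  Then on every 2-adic ball
`{x : |x - a|_2 ≤ 2 ^ (-m)}` in `ℚ_(2)` there is a bound `M` such that `|h x| ≤ M` for elements `x`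
of the ball of arbitrarily large real absolute value. -/
theorem result (h : ℚ → ℚ) (_ : Set.MapsTo h D D) (hi : Set.InjOn h D)
    (hc : ∀ x ∈ D, h (T 3 x) = T 5 (h x)) :
    ∀ a ∈ D, ∀ m : ℕ, ∃ M : ℚ, ∀ N : ℚ, ∃ x ∈ D, (x - a) / 2 ^ m ∈ D ∧ N < |x| ∧ |h x| ≤ M :=
  local_main hi hc

end Pool.Agent.Results.MP_b77ea7_nt.NotProper
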