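import Pool.Agent.Lib.MP_b77ea7_ntH73.Main

/-!
A map that carries `T_3` to `T_5` on the rational numbers with odd denominator has nowhere a 2-adic
derivative other than 0.
-/

set_option autoImplicit false

namespace Pool.Agent.Results.MP_b77ea7_nt.NowhereDifferentiable

open RatDeriv

/-- Let `h : ℚ_(2) → ℚ_(2)` with `h (T_3 x) = T_5 (h x)` for all `x` (for example a topological
conjugacy of the restrictions of `T_3` and `T_5`). If `h` has a 2-adic derivative `L` at a point
`x` of `ℚ_(2)`, then `L = 0`. -/
theorem result (h : ℚ → ℚ) (hm : Set.MapsTo h D D) (hc : ∀ x ∈ D, h (T 3 x) = T 5 (h x))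
    (x : ℚ) (hx : x ∈ D) (L : ℚ_[2]) (hL : HasDer h x L) : L = 0 :=
  main hm hc hx hL

end Pool.Agent.Results.MP_b77ea7_nt.NowhereDifferentiable
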