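import Pool.Agent.Lib.MP_b77ea7_nt.Ball62
import Pool.Agent.Lib.MP_b77ea7_ntH49.Trans

/-!
# MP_b77ea7_nt: conjugacies of the 3x+1 and the 5x+1 map on the 2-adic rationals: rigidity of the
uniformly continuous ones, and its failure without uniform continuity

`Fin49 k` is the set of the points of `Q_(2)` with a finite orbit under `T_k`.
-/

set_option autoImplicit false

namespace Pool.Agent.Results.MP_b77ea7_nt.UniformRigidity

open TwoAdicQ Filter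

open Classical in
theorem result :
    (∀ h, Conj h → (UCBall h ∨ ∃ g, UCBall g ∧ ∀ x ∈ D, g (h x) = x) → Isometric h) ∧
    ((∃ h, Conj h ∧ Isometric h) ↔
      {s | ∃ x ∈ D, Par 3 x = s} = {s | ∃ x ∈ D, Par 5 x = s}) ∧
    ((∀ x ∈ D, FinOrb 3 x) → (∀ x ∈ D, FinOrb 5 x) → ∃ h, Conj h ∧ Isometric h) ∧
    ((∃ h, Conj h) → ((∀ x ∈ D, FinOrb 3 x) ↔ ∀ x ∈ D, FinOrb 5 x)) ∧
    ((∃ h, Conj h ∧ Isometric h) → ∀ y ∈ D, ¬ FinOrb 5 y → ∀ θ : ℝ,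
      θ < Real.log 2 / Real.log 3 → ∀ᶠ n : ℕ in atTop,
        θ * n ≤ (((Finset.range n).filter fun i => ¬ Par 5 y i).card : ℝ)) ∧
    ∀ k l : ℕ, Odd k → Odd l →
      (∃ h g, TopConjFin k l h g ∧
        ∀ n, ∀ x ∈ Fin49 k, ∀ y ∈ Fin49 k, Near n x y ↔ Near n (h x) (h y)) ∧
      ∃ h g, TopConjFin k l h g ∧ ¬ UCBallFin k h ∧ ¬ UCBallFin l g :=
  ⟨main3.1, main3.2.1, main3.2.2.1, main3.2.2.2.1, main3.2.2.2.2,
    fun _ _ hk hl => ⟨iso_fin hk hl, wild_fin hk hl⟩⟩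

end Pool.Agent.Results.MP_b77ea7_nt.UniformRigidity
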